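import Pool.Agent.helper70.M8.P3
import Pool.Agent.helper70.M10.Defs
import Pool.Agent.helper70.M10.ChkC

set_option autoImplicit false

/-!
# M10-H: basics of the combinatorial checker, one column, sides (port of M8/P1, P2, P3, P6)
-/

open Set

namespace Oct.N

open Oct

theorem okP_sound {e e' : Seg} (he : e.lo < e.hi) (he' : e'.lo < e'.hi) (h : okP e e' = true) :
    pres e e' ≠ none ∧ ∀ s, Pres e e' s → e.lb s = e'.lb s :=
  Oct.okP_sound he he' h

theorem regF_eq {g : Gl} (hg : glOK g = true) {b : Box} (hz : b.lab.natAbs ≤ g.par.length)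
    (s : Bool) : regF g b s = regLab g.par g.s0 b s := by
  unfold regF regLab
  rw [sgF_eq hg hz, upF_eq hg hz]
  rcases h : b.ty with _ | k
  · simp
  · simp

theorem blF_eq {g : Gl} (hg : glOK g = true) {b : Box} (hz : b.lab.natAbs ≤ g.par.length)
    (L : List Column) (s : S3) : blF g b s = (certOf g L).bl b s := by
  cases s
  · exact regF_eq hg hz true
  · exact regF_eq hg hz false
  · rfl

namespace H19

theorem evS_eq (l : List ℤ) (right : Bool) : evS l right = evI l (if right then 1 else 0) := by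
  cases right
  · cases l with
    | nil => simp [evS, evI]
    | cons c l => simp [evS, evI]
  · unfold evS evI
    simp only [if_true]
    induction l with
    | nil => rfl
    | cons c l ih =>
      simp only [List.foldr_cons, ih, one_mul]

end H19

/-- the segments computed by the checker, side `t = 0` (`right = false`) or `t = 1` -/
theorem segsF_eq {g : Gl} (hg : glOK g = true) {c : Column}
    (hz : ∀ b ∈ c.bx, b.lab.natAbs ≤ g.par.length) (m : ℤ) (right : Bool) :
    segsF g c m right = (edgeOf g.par g.s0 c (if right then c.b else c.a) m right).segs := by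
  unfold segsF edgeOf
  refine List.map_congr_left fun b hb => ?_
  have hb1 : ∀ x y : ℕ, Nat.beq x y = (x == y) := by
    intro x y
    rw [Bool.eq_iff_iff, Nat.beq_eq, beq_iff_eq]
  have he : evS b.be right = evI b.be (if right then c.b else c.a) := H19.evS_eq b.be right
  unfold segF segOf Box.lvZ
  rw [regF_eq hg (hz b hb), regF_eq hg (hz b hb)]
  simp only [hb1, he]

namespace H19

theorem eqL_iff (l m : List ℤ) : eqL l m = true ↔ l = m := by
  induction l generalizing m with
  | nil => cases m <;> simp [eqL]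
  | cons a l ih =>
    cases m with
    | nil => simp [eqL]
    | cons b m => simp [eqL, eqZ_iff, ih]

end H19

theorem sameF_sound {b b' : Box} (h : sameF b b' = true) : Same b b' := by
  simp only [sameF, Bool.and_eq_true, eqZ_iff, H19.eqL_iff] at h
  exact ⟨h.1.1, h.2, h.1.2⟩

namespace H19

theorem evR_nil (t : ℝ) : evR [] t = 0 := rfl

theorem evR_cons (c : ℤ) (l : List ℤ) (t : ℝ) : evR (c :: l) t = (c : ℝ) + t * evR l t := rfl

theorem evR_subL (l m : List ℤ) (t : ℝ) : evR (subL l m) t = evR l t - evR m t := by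
  induction m generalizing l with
  | nil => cases l <;> simp [subL, evR_nil]
  | cons b m ih =>
    cases l with
    | nil =>
      rw [subL, evR_cons, ih, evR_cons, evR_nil, negZ_eq]
      push_cast
      ring
    | cons a l =>
      rw [subL, evR_cons, ih, evR_cons, evR_cons]
      push_cast
      ring

theorem negS_nonpos (l : List ℤ) : negS l ≤ 0 := by
  induction l with
  | nil => exact le_refl _
  | cons c l ih =>
    simp only [negS]
    split_ifs with h
    · rw [ltZ_iff] at h; omega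
    · omega

theorem posS_nonneg (l : List ℤ) : 0 ≤ posS l := by
  induction l with
  | nil => exact le_refl _
  | cons c l ih =>
    simp only [posS]
    split_ifs with h
    · rw [ltZ_iff] at h; omega
    · omega

theorem negS_le (l : List ℤ) {t : ℝ} (h0 : 0 ≤ t) (h1 : t ≤ 1) : (negS l : ℝ) ≤ t * evR l t := by
  induction l with
  | nil => simp [negS, evR_nil]
  | cons c l ih =>
    have h2 : (negS l : ℝ) ≤ 0 := by exact_mod_cast negS_nonpos l
    have h3 : (negS l : ℝ) ≤ t * (t * evR l t) := by nlinarith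
    rw [evR_cons]
    have h4 : (((if ltZ c 0 then c else 0) : ℤ) : ℝ) ≤ t * (c : ℝ) := by
      split_ifs with h
      · rw [ltZ_iff] at h
        have : (c : ℝ) < 0 := by exact_mod_cast h
        nlinarith
      · rw [ltZ_iff] at h
        have : (0 : ℝ) ≤ c := by exact_mod_cast (not_lt.1 h)
        simpa using mul_nonneg h0 this
    simp only [negS]
    rw [Int.cast_add]
    linarith

theorem le_posS (l : List ℤ) {t : ℝ} (h0 : 0 ≤ t) (h1 : t ≤ 1) : t * evR l t ≤ (posS l : ℝ) := by
  induction l with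
  | nil => simp [posS, evR_nil]
  | cons c l ih =>
    have h2 : (0 : ℝ) ≤ (posS l : ℝ) := by exact_mod_cast posS_nonneg l
    have h3 : t * (t * evR l t) ≤ (posS l : ℝ) := by nlinarith
    rw [evR_cons]
    have h4 : t * (c : ℝ) ≤ (((if ltZ 0 c then c else 0) : ℤ) : ℝ) := by
      split_ifs with h
      · rw [ltZ_iff] at h
        have : (0 : ℝ) < c := by exact_mod_cast h
        nlinarith
      · rw [ltZ_iff] at h
        have : (c : ℝ) ≤ 0 := by exact_mod_cast (not_lt.1 h)
        simpa using mul_nonpos_of_nonneg_of_nonpos h0 this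
    simp only [posS]
    rw [Int.cast_add]
    linarith

theorem lowP_le (l : List ℤ) {t : ℝ} (h0 : 0 ≤ t) (h1 : t ≤ 1) : (lowP l : ℝ) ≤ evR l t := by
  cases l with
  | nil => simp [lowP, evR_nil]
  | cons c l =>
    rw [evR_cons]
    simp only [lowP]
    rw [Int.cast_add]
    linarith [negS_le l h0 h1]

theorem le_uppP (l : List ℤ) {t : ℝ} (h0 : 0 ≤ t) (h1 : t ≤ 1) : evR l t ≤ (uppP l : ℝ) := by
  cases l with
  | nil => simp [uppP, evR_nil]
  | cons c l =>
    rw [evR_cons]
    simp only [uppP]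
    rw [Int.cast_add]
    linarith [le_posS l h0 h1]

end H19

theorem juncF_sound {b b' : Box} (h : juncF b b' = true) : Junc b b' := by
  simp only [juncF, Bool.and_eq_true, Nat.beq_eq, ltZ_iff, leZ_iff] at h
  obtain ⟨⟨⟨⟨h1, h2⟩, h3⟩, h4⟩, h5⟩ := h
  refine ⟨h1, h2, fun t h0 h1' => ?_⟩
  have hl := H19.lowP_le (subL b'.be b.be) h0 h1'
  have hu := H19.le_uppP (subL b'.be b.be) h0 h1'
  rw [H19.evR_subL] at hl hu
  have h3' : (b.al : ℝ) * b.lo < b'.al * b'.lo + lowP (subL b'.be b.be) := by exact_mod_cast h3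
  have h4' : (b'.al : ℝ) * b'.lo + uppP (subL b'.be b.be) ≤ b.al * b.hi := by exact_mod_cast h4
  have h5' : (b.al : ℝ) * b.hi < b'.al * b'.hi + lowP (subL b'.be b.be) := by exact_mod_cast h5
  unfold Box.lv
  refine ⟨by linarith, by linarith, by linarith⟩

namespace H19

theorem nat_beq0 {a : ℕ} : Nat.beq a 0 = true ↔ a = 0 := by
  rw [Nat.beq_eq]

theorem nat_blt {a b : ℕ} : Nat.blt a b = true ↔ a < b := by
  unfold Nat.blt
  rw [Nat.ble_eq]
  rfl

theorem vertF_cons {g : Gl} {pj : Bool} {b b' : Box} {L : List Box}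
    (h : vertF g pj (b :: b' :: L) = true) :
    (b.sh = b'.sl ∧ regF g b b.sh = regF g b' b.sh) ∧
    ((Same b b' ∧ vertF g false (b' :: L) = true) ∨
      (pj = false ∧ Junc b b' ∧ vertF g true (b' :: L) = true)) := by
  rw [vertF] at h
  simp only [Bool.and_eq_true, eqZ_iff, beq_iff_eq] at h
  refine ⟨h.1, ?_⟩
  by_cases hs : sameF b b' = true
  · rw [if_pos hs] at h
    exact Or.inl ⟨sameF_sound hs, h.2⟩
  · rw [if_neg hs] at h
    simp only [Bool.and_eq_true, Bool.not_eq_true'] at h
    exact Or.inr ⟨h.2.1.1, juncF_sound h.2.1.2, h.2.2⟩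

theorem vertF_spec {g : Gl} {pj : Bool} {l : List Box} (h : vertF g pj l = true) {j : ℕ}
    (hj : j + 1 < l.length) :
    (Same (l.getD j box0) (l.getD (j + 1) box0) ∨ Junc (l.getD j box0) (l.getD (j + 1) box0)) ∧
    (l.getD j box0).sh = (l.getD (j + 1) box0).sl ∧
    regF g (l.getD j box0) (l.getD j box0).sh = regF g (l.getD (j + 1) box0) (l.getD j box0).sh := by
  induction l generalizing j pj with
  | nil => simp at hj
  | cons a l ih =>
    cases l with
    | nil => simp at hj
    | cons b l =>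
      obtain ⟨h1, h2⟩ := vertF_cons h
      cases j with
      | zero =>
        refine ⟨?_, h1.1, h1.2⟩
        rcases h2 with h2 | h2
        · exact Or.inl h2.1
        · exact Or.inr h2.2.1
      | succ j =>
        have hj' : j + 1 < (b :: l).length := by simpa using hj
        rcases h2 with h2 | h2
        · exact ih h2.2 (j := j) hj'
        · exact ih h2.2.2 (j := j) hj'

/-- no two consecutive junctions -/
theorem vertF_spec2 {g : Gl} {pj : Bool} {l : List Box} (h : vertF g pj l = true) :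
    (pj = true → 1 < l.length → Same (l.getD 0 box0) (l.getD 1 box0)) ∧
    ∀ j, j + 2 < l.length → Same (l.getD j box0) (l.getD (j + 1) box0) ∨
      Same (l.getD (j + 1) box0) (l.getD (j + 2) box0) := by
  induction l generalizing pj with
  | nil =>
    refine ⟨fun _ h => ?_, fun j hj => ?_⟩
    · simp at h
    · simp at hj
  | cons a l ih =>
    cases l with
    | nil =>
      refine ⟨fun _ h => ?_, fun j hj => ?_⟩
      · simp at h
      · simp at hj
    | cons b l =>
      obtain ⟨-, h2⟩ := vertF_cons h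
      refine ⟨?_, ?_⟩
      · intro hp _
        rcases h2 with h2 | h2
        · exact h2.1
        · rw [hp] at h2
          exact absurd h2.1 (by simp)
      · intro j hj
        cases j with
        | zero =>
          rcases h2 with h2 | h2
          · exact Or.inl h2.1
          · exact Or.inr ((ih h2.2.2).1 rfl (by simpa using hj))
        | succ j =>
          have hj' : j + 2 < (b :: l).length := by
            rw [List.length_cons] at hj
            omega
          rcases h2 with h2 | h2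
          · exact (ih h2.2).2 j hj'
          · exact (ih h2.2.2).2 j hj'

theorem colC_lab {g : Gl} {c : Column} (h : colC g c = true) :
    ∀ b ∈ c.bx, 0 < b.s ∧ 0 < b.al ∧ b.lab.natAbs ≤ g.par.length ∧ (b.ty ≠ 0 → b.lab ≠ 0) := by
  simp only [colC, Bool.and_eq_true, List.all_eq_true, ltZ_iff, Nat.ble_eq] at h
  obtain ⟨⟨⟨⟨_, hb⟩, _⟩, _⟩, _⟩ := h
  intro b hbm
  obtain ⟨⟨⟨h1, h2⟩, h3⟩, h4⟩ := hb b hbm
  refine ⟨h1, h2, h3, fun hty h0 => ?_⟩
  rcases (Bool.or_eq_true_iff).1 h4 with h4 | h4
  · exact hty (Nat.eq_of_beq_eq_true h4)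
  · rw [(eqZ_iff _ _).2 h0] at h4
    simp at h4

theorem lbS_eq (e : Seg) (s : Bool) : lbS e s = e.lb (S3.of s) := by
  cases s <;> rfl

end H19

/-- meaning of `colC` -/
theorem colC_spec {g : Gl} {c : Column} (hg : glOK g = true) (h : colC g c = true) :
    (0 < c.x1 * c.y0 - c.x0 * c.y1 ∧ 0 ≤ c.ch.vyZ c.a ∧ 0 ≤ c.ch.vyZ c.b ∧ c.bx ≠ []) ∧
    (∀ b ∈ c.bx, 0 < b.s ∧ 0 < b.al ∧ b.lab.natAbs ≤ g.par.length ∧ (b.ty ≠ 0 → b.lab ≠ 0)) ∧
    (∀ j, j + 1 < c.bx.length →
      (Same (c.box j) (c.box (j + 1)) ∨ Junc (c.box j) (c.box (j + 1))) ∧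
      (c.box j).sh = (c.box (j + 1)).sl ∧
      regLab g.par g.s0 (c.box j) (c.box j).sh =
        regLab g.par g.s0 (c.box (j + 1)) (c.box j).sh) ∧
    (∀ j, j + 2 < c.bx.length →
      Same (c.box j) (c.box (j + 1)) ∨ Same (c.box (j + 1)) (c.box (j + 2))) ∧
    ((c.box 0).sl = g.sp ∧ regLab g.par g.s0 (c.box 0) g.sp = -g.pl ∧
      (c.rb0 = 0 ∨ g.rp1 < c.rb0 ∨ (c.box 0).rk false (S3.of g.sp) < c.rb0) ∧
      (c.rb1 = 0 ∨ g.rp0 < c.rb1 ∨ (c.box 0).rk true (S3.of g.sp) < c.rb1)) ∧
    ((c.box (c.bx.length - 1)).sh = g.sp ∧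
      regLab g.par g.s0 (c.box (c.bx.length - 1)) g.sp = g.pl ∧
      (c.rt0 = 0 ∨ g.rp0 < c.rt0 ∨
        (c.box (c.bx.length - 1)).rk false (S3.of g.sp) < c.rt0) ∧
      (c.rt1 = 0 ∨ g.rp1 < c.rt1 ∨
        (c.box (c.bx.length - 1)).rk true (S3.of g.sp) < c.rt1)) := by
  have hlab := H19.colC_lab h
  have hbox : ∀ j, j < c.bx.length → (c.box j).lab.natAbs ≤ g.par.length := by
    intro j hj
    have : c.box j = c.bx[j] := List.getD_eq_getElem _ _ hj
    rw [this]
    exact (hlab _ (List.getElem_mem hj)).2.2.1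
  simp only [colC, Bool.and_eq_true, ltZ_iff, leZ_iff] at h
  obtain ⟨⟨⟨⟨⟨⟨hdet, hva⟩, hvb⟩, _⟩, hv⟩, hbot⟩, htop⟩ := h
  have hne : c.bx ≠ [] := by
    intro h0
    rw [h0] at hbot
    simp at hbot
  have hlen : 0 < c.bx.length := List.length_pos_iff.2 hne
  have h0 : c.bx.head? = some (c.box 0) := by
    cases hc : c.bx with
    | nil => exact absurd hc hne
    | cons a l => simp [Column.box, hc]
  have hl : c.bx.getLast? = some (c.box (c.bx.length - 1)) := by
    rw [List.getLast?_eq_getElem?, List.getElem?_eq_getElem (by omega)]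
    exact congrArg some (List.getD_eq_getElem _ _ (by omega)).symm
  rw [h0] at hbot
  rw [hl] at htop
  simp only [Bool.and_eq_true, Bool.or_eq_true, beq_iff_eq, eqZ_iff, negZ_eq,
    H19.nat_beq0, H19.nat_blt, regF_eq hg (hbox 0 hlen),
    regF_eq hg (hbox (c.bx.length - 1) (by omega))] at hbot htop
  refine ⟨⟨hdet, hva, hvb, hne⟩, hlab, ?_, fun j hj => (H19.vertF_spec2 hv).2 j hj,
    ⟨hbot.1.1.1, hbot.1.1.2, ?_, ?_⟩, ⟨htop.1.1.1, htop.1.1.2, ?_, ?_⟩⟩
  · intro j hj
    have := H19.vertF_spec hv hj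
    refine ⟨this.1, this.2.1, ?_⟩
    rw [← regF_eq hg (hbox j (by omega)), ← regF_eq hg (hbox (j + 1) hj)]
    exact this.2.2
  · rcases hbot.1.2 with (h | h) | h
    · exact Or.inl h
    · exact Or.inr (Or.inl h)
    · exact Or.inr (Or.inr h)
  · rcases hbot.2 with (h | h) | h
    · exact Or.inl h
    · exact Or.inr (Or.inl h)
    · exact Or.inr (Or.inr h)
  · rcases htop.1.2 with (h | h) | h
    · exact Or.inl h
    · exact Or.inr (Or.inl h)
    · exact Or.inr (Or.inr h)
  · rcases htop.2 with (h | h) | h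
    · exact Or.inl h
    · exact Or.inr (Or.inl h)
    · exact Or.inr (Or.inr h)

/-- soundness of the test of two sides -/
theorem glue_sound {g : Gl} {E E' : Edge} (hne : E.segs ≠ []) (hne' : E'.segs ≠ [])
    (hlo : E.lo = loE E.segs) (hhi : E.hi = hiE E.segs) (hlo' : E'.lo = loE E'.segs)
    (hhi' : E'.hi = hiE E'.segs) (hs : ∀ e ∈ E.segs, e.lo < e.hi) (hs' : ∀ e ∈ E'.segs, e.lo < e.hi)
    (h : glueF g E.segs E'.segs = true) : EdgeGlue g.sp g.pl E E' := by
  have _ := hne
  have _ := hne'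
  unfold glueF at h
  simp only [Bool.and_eq_true, List.all_eq_true, Bool.or_eq_true, ltZ_iff, eqZ_iff, negZ_eq,
    ← hlo, ← hhi, ← hlo', ← hhi', H19.lbS_eq] at h
  obtain ⟨⟨⟨⟨h1, h2⟩, h3⟩, h4⟩, h5⟩ := h
  refine ⟨?_, h1, h2, ?_, ?_, ?_, ?_⟩
  · intro e he e' he'
    exact Oct.okP_sound (hs e he) (hs' e' he') (h5 e he e' he')
  · intro e he hle
    exact (h3 e he).1.resolve_left (not_lt.2 hle)
  · intro e he hle
    exact (h4 e he).1.resolve_left (not_lt.2 hle)
  · intro e he hle
    exact (h3 e he).2.resolve_left (not_lt.2 hle)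
  · intro e he hle
    exact (h4 e he).2.resolve_left (not_lt.2 hle)

end Oct.N
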